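import Pool.Agent.Lib_helper59.HT.Defs

/-! Block ALG (MP_a0015d_pr): splitting of the `p`-adic valuation of the determinant
(Smith normal form). -/

set_option autoImplicit false

open Finset Matrix

namespace Pool.Agent.HT

/-- Smith normal form of a nonsingular integer matrix. -/
lemma alg_snf {ι : Type} [Fintype ι] [DecidableEq ι] (A : Matrix ι ι ℤ) (h : A.det ≠ 0) :
    ∃ (P P' U U' : Matrix ι ι ℤ) (d : ι → ℤ), P' * P = 1 ∧ U' * U = 1 ∧
      A * P = U * Matrix.diagonal d := by
  classical
  have hinj : Function.Injective A.mulVecLin := by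
    intro x y hxy
    have hxy' : A *ᵥ x = A *ᵥ y := by simpa using hxy
    have h1 : A *ᵥ (x - y) = 0 := by rw [Matrix.mulVec_sub, hxy', sub_self]
    have h2 := Matrix.eq_zero_of_mulVec_eq_zero h h1
    exact sub_eq_zero.mp h2
  let N : Submodule ℤ (ι → ℤ) := LinearMap.range A.mulVecLin
  let e : (ι → ℤ) ≃ₗ[ℤ] N := LinearEquiv.ofInjective A.mulVecLin hinj
  have hr : Module.finrank ℤ N = Module.finrank ℤ (ι → ℤ) := (LinearEquiv.finrank_eq e).symm
  obtain ⟨b', a, ab', hab⟩ :=
    Submodule.exists_smith_normal_form_of_rank_eq (Pi.basisFun ℤ ι) hr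
  let bv : Module.Basis ι ℤ (ι → ℤ) := ab'.map e.symm
  have hbv : ∀ i, A *ᵥ (bv i) = a i • b' i := by
    intro i
    have h1 : (e (bv i) : ι → ℤ) = A *ᵥ (bv i) := rfl
    rw [← h1]
    have h2 : e (bv i) = ab' i := by simp [bv]
    rw [h2, hab i]
  refine ⟨(Pi.basisFun ℤ ι).toMatrix bv, bv.toMatrix (Pi.basisFun ℤ ι),
    (Pi.basisFun ℤ ι).toMatrix b', b'.toMatrix (Pi.basisFun ℤ ι), a, ?_, ?_, ?_⟩
  · exact Module.Basis.toMatrix_mul_toMatrix_flip _ _
  · exact Module.Basis.toMatrix_mul_toMatrix_flip _ _
  · ext j i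
    rw [Matrix.mul_apply, Matrix.mul_diagonal]
    have h3 := congrFun (hbv i) j
    simp only [Matrix.mulVec, dotProduct, Pi.smul_apply, smul_eq_mul] at h3
    simp only [Module.Basis.toMatrix_apply, Pi.basisFun_repr]
    rw [h3, mul_comm]

/-- membership in the kernel in matrix form -/
lemma alg_mem_Kq {n q : ℕ} (τ : E' n → Tri n) (f : E' n → ZMod q) :
    f ∈ Kq (ZMod q) τ ↔ ∀ i, ((M τ).map (Int.cast : ℤ → ZMod q) *ᵥ f) i = 0 := by
  have key : ∀ i, cob (tl f) (τ i) = ((M τ).map (Int.cast : ℤ → ZMod q) *ᵥ f) i := by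
    intro i
    simp only [cob, tl, Matrix.mulVec, dotProduct, Matrix.map_apply, M, Matrix.of_apply, bd]
    rw [← Finset.sum_add_distrib, ← Finset.sum_add_distrib]
    refine Finset.sum_congr rfl fun e _ => ?_
    simp only [zsmul_eq_mul]
    push_cast
    ring
  constructor
  · intro h i
    rw [← key i]
    exact h i
  · intro h i
    rw [key i]
    exact h i

lemma alg_AA {n : ℕ} (p q : ℕ) (hp : p.Prime) (_hpq : p ∣ q) (hq : q ≠ 0) (τ : E' n → Tri n)
    (P P' U U' : Matrix (E' n) (E' n) ℤ) (d : E' n → ℤ) (hP : P' * P = 1) (hU : U' * U = 1)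
    (hM : M τ * P = U * Matrix.diagonal d) (R : Finset (E' n)) (hR : R.Nonempty)
    (hd : ∀ i ∈ R, (q : ℤ) ∣ d i) : AA p q (q ^ R.card) τ := by
  classical
  have : NeZero q := ⟨hq⟩
  have hU2 : U * U' = 1 := mul_eq_one_comm.mp hU
  have hP2 : P * P' = 1 := mul_eq_one_comm.mp hP
  constructor
  · obtain ⟨i, hi⟩ := hR
    refine ⟨fun j => U' i j, ?_, ?_⟩
    · by_contra hcon
      push Not at hcon
      have h1 : (p : ℤ) ∣ (U' * U) i i := by
        rw [Matrix.mul_apply]
        exact Finset.dvd_sum fun j _ => Dvd.dvd.mul_right (hcon j) _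
      rw [hU, Matrix.one_apply_eq] at h1
      have h2 : (p : ℤ) ∣ ((1 : ℕ) : ℤ) := by simpa using h1
      have h3 := Int.natCast_dvd_natCast.mp h2
      exact hp.one_lt.ne' (Nat.dvd_one.mp h3)
    · intro e
      have h1 : U' * M τ = Matrix.diagonal d * P' := by
        calc U' * M τ = U' * (M τ * (P * P')) := by rw [hP2, Matrix.mul_one]
          _ = U' * ((M τ * P) * P') := by rw [Matrix.mul_assoc]
          _ = U' * (U * Matrix.diagonal d * P') := by rw [hM]
          _ = (U' * U) * (Matrix.diagonal d * P') := by simp only [Matrix.mul_assoc]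
          _ = Matrix.diagonal d * P' := by rw [hU, Matrix.one_mul]
      have h2 := congrFun (congrFun h1 i) e
      rw [Matrix.mul_apply, Matrix.diagonal_mul] at h2
      rw [h2]
      exact Dvd.dvd.mul_right (hd i hi) _
  · let c : Matrix (E' n) (E' n) ℤ → Matrix (E' n) (E' n) (ZMod q) :=
      fun A => A.map (Int.cast : ℤ → ZMod q)
    have hc : ∀ A B : Matrix (E' n) (E' n) ℤ, c (A * B) = c A * c B := fun A B =>
      Matrix.map_mul (f := Int.castRingHom (ZMod q))
    have hc1 : c 1 = 1 := by
      have := Matrix.map_one (n := E' n) (Int.castRingHom (ZMod q)) (map_zero _) (map_one _)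
      exact this
    let g : (R → ZMod q) → E' n → ZMod q := fun x i => if h : i ∈ R then x ⟨i, h⟩ else 0
    have hg : ∀ x, c P *ᵥ g x ∈ Kq (ZMod q) τ := by
      intro x
      rw [alg_mem_Kq]
      intro i
      have h1 : c (M τ) *ᵥ (c P *ᵥ g x) = c U *ᵥ (c (Matrix.diagonal d) *ᵥ g x) := by
        rw [Matrix.mulVec_mulVec, Matrix.mulVec_mulVec, ← hc, ← hc, hM]
      have h2 : c (Matrix.diagonal d) *ᵥ g x = 0 := by
        have h3 : c (Matrix.diagonal d) = Matrix.diagonal (fun i => ((d i : ℤ) : ZMod q)) := by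
          simp only [c]
          rw [Matrix.diagonal_map (Int.cast_zero)]
        rw [h3]
        ext j
        rw [Matrix.mulVec_diagonal]
        by_cases hj : j ∈ R
        · have : ((d j : ℤ) : ZMod q) = 0 := (ZMod.intCast_zmod_eq_zero_iff_dvd _ _).mpr (hd j hj)
          rw [this]
          simp
        · simp [g, hj]
      have h4 : c (M τ) *ᵥ (c P *ᵥ g x) = 0 := by rw [h1, h2, Matrix.mulVec_zero]
      exact congrFun h4 i
    let F : (R → ZMod q) → Kq (ZMod q) τ := fun x => ⟨c P *ᵥ g x, hg x⟩
    have hF : Function.Injective F := by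
      intro x y hxy
      have h1 : c P *ᵥ g x = c P *ᵥ g y := congrArg Subtype.val hxy
      have h2 : g x = g y := by
        have h3 : c P' *ᵥ (c P *ᵥ g x) = c P' *ᵥ (c P *ᵥ g y) := by rw [h1]
        rw [Matrix.mulVec_mulVec, Matrix.mulVec_mulVec, ← hc, hP, hc1, Matrix.one_mulVec,
          Matrix.one_mulVec] at h3
        exact h3
      funext i
      have h3 := congrFun h2 i.1
      simpa [g] using h3
    have hcard : Nat.card (R → ZMod q) = q ^ R.card := by
      rw [Nat.card_fun, Nat.card_zmod]
      simp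
    rw [← hcard]
    exact Nat.card_le_card_of_injective F hF

/-- BLOCK ALG -/
theorem val_split_pr (n p s : ℕ) (hp : p.Prime) (hs : 1 ≤ s) (τ : E' n → Tri n)
    (hdet : (M τ).det ≠ 0) (hv : s * s ≤ padicValInt p (M τ).det) :
    AA p (p ^ 1) (p ^ s) τ ∨ AA p (p ^ s) (p ^ s) τ := by
  classical
  have : Fact p.Prime := ⟨hp⟩
  obtain ⟨P, P', U, U', d, hP, hU, hM⟩ := alg_snf (M τ) hdet
  have hmono : ∀ (q m m' : ℕ), m' ≤ m → AA p q m τ → AA p q m' τ := by
    intro q m m' hmm h
    exact ⟨h.1, le_trans hmm h.2⟩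
  by_cases hcase : s ≤ (Finset.univ.filter (fun i => (p : ℤ) ∣ d i)).card
  · left
    have hne : (Finset.univ.filter (fun i => (p : ℤ) ∣ d i)).Nonempty := by
      rw [← Finset.card_pos]
      omega
    have h1 := alg_AA p (p ^ 1) hp (by simp) (by simp [hp.ne_zero]) τ P P' U U' d hP hU hM _ hne
      (by
        intro i hi
        have := (Finset.mem_filter.mp hi).2
        simpa using this)
    refine hmono _ _ _ ?_ h1
    rw [pow_one]
    exact Nat.pow_le_pow_right hp.pos hcase
  · right
    push Not at hcase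
    by_cases hex : ∃ i, ((p ^ s : ℕ) : ℤ) ∣ d i
    · obtain ⟨i, hi⟩ := hex
      have h1 := alg_AA p (p ^ s) hp (dvd_pow_self p (by omega)) (pow_ne_zero _ hp.ne_zero) τ
        P P' U U' d hP hU hM {i} (Finset.singleton_nonempty i)
        (by
          intro j hj
          rw [Finset.mem_singleton] at hj
          rw [hj]
          exact hi)
      simpa using h1
    · exfalso
      push Not at hex
      have hdP : IsUnit P.det := by
        have : P'.det * P.det = 1 := by rw [← Matrix.det_mul, hP, Matrix.det_one]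
        exact IsUnit.of_mul_eq_one_right _ this
      have hdU : IsUnit U.det := by
        have : U'.det * U.det = 1 := by rw [← Matrix.det_mul, hU, Matrix.det_one]
        exact IsUnit.of_mul_eq_one_right _ this
      have hdet2 : (M τ).det * P.det = U.det * ∏ i, d i := by
        rw [← Matrix.det_mul, hM, Matrix.det_mul, Matrix.det_diagonal]
      have habs : (M τ).det.natAbs = (∏ i, d i).natAbs := by
        have h1 := congrArg Int.natAbs hdet2
        rw [Int.natAbs_mul, Int.natAbs_mul, Int.natAbs_of_isUnit hdP, Int.natAbs_of_isUnit hdU,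
          mul_one, one_mul] at h1
        exact h1
      have hprod : (∏ i, d i) ≠ 0 := by
        intro h0
        rw [h0] at habs
        exact hdet (Int.natAbs_eq_zero.mp (by simpa using habs))
      have hd0 : ∀ i, d i ≠ 0 := fun i h0 =>
        hprod (Finset.prod_eq_zero (Finset.mem_univ i) h0)
      have hval : ∀ S : Finset (E' n), padicValInt p (∏ i ∈ S, d i) =
          ∑ i ∈ S, padicValInt p (d i) := by
        intro S
        induction S using Finset.induction_on with
        | empty => simp
        | insert a S ha ih =>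
          rw [Finset.prod_insert ha, Finset.sum_insert ha,
            padicValInt.mul (hd0 a) (Finset.prod_ne_zero_iff.mpr fun i _ => hd0 i), ih]
      have h1 : padicValInt p (M τ).det = ∑ i, padicValInt p (d i) := by
        rw [← hval]
        unfold padicValInt
        rw [habs]
      have h2 : ∑ i, padicValInt p (d i) ≤
          ∑ i ∈ Finset.univ.filter (fun i => (p : ℤ) ∣ d i), (s - 1) := by
        rw [Finset.sum_filter]
        refine Finset.sum_le_sum fun i _ => ?_
        by_cases hpd : (p : ℤ) ∣ d i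
        · rw [if_pos hpd]
          by_contra hlt
          push Not at hlt
          apply hex i
          have h3 : s ≤ padicValInt p (d i) := by omega
          push_cast
          exact (padicValInt_dvd_iff s (d i)).mpr (Or.inr h3)
        · rw [if_neg hpd, padicValInt.eq_zero_of_not_dvd hpd]
      rw [Finset.sum_const, smul_eq_mul] at h2
      have h3 : (Finset.univ.filter (fun i => (p : ℤ) ∣ d i)).card * (s - 1) ≤
          (s - 1) * (s - 1) := Nat.mul_le_mul_right _ (by omega)
      have h4 : (s - 1) * (s - 1) < s * s := Nat.mul_self_lt_mul_self (by omega)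
      omega

end Pool.Agent.HT
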