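import Pool.Agent.Lib_helper59.HT.Defs2

/-! Block L4 (MP_a0015d_pr): a cochain mod `q` with `indf f` close to `nuf f` in cut norm is
almost a coboundary or quasirandom. -/

set_option autoImplicit false

open Finset Matrix

namespace Pool.Agent.HT

/-! ### cut norm -/

lemma l4_abs_sum {ι : Type} [Fintype ι] (T : ι → ℝ) (c : ℝ)
    (h : ∀ A : Finset ι, |∑ u ∈ A, T u| ≤ c) : ∑ u, |T u| ≤ 2 * c := by
  classical
  have h1 := (abs_le.mp (h (univ.filter fun u => 0 ≤ T u))).2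
  have h2 := (abs_le.mp (h (univ.filter fun u => ¬ 0 ≤ T u))).1
  rw [← Finset.sum_filter_add_sum_filter_not univ (fun u => 0 ≤ T u) (fun u => |T u|)]
  have e1 : ∑ u ∈ univ.filter (fun u => 0 ≤ T u), |T u| =
      ∑ u ∈ univ.filter (fun u => 0 ≤ T u), T u :=
    Finset.sum_congr rfl fun u hu => abs_of_nonneg (Finset.mem_filter.mp hu).2
  have e2 : ∑ u ∈ univ.filter (fun u => ¬ 0 ≤ T u), |T u| =
      - ∑ u ∈ univ.filter (fun u => ¬ 0 ≤ T u), T u := by
    rw [← Finset.sum_neg_distrib]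
    exact Finset.sum_congr rfl fun u hu =>
      abs_of_neg (not_le.mp (Finset.mem_filter.mp hu).2)
  rw [e1, e2]
  linarith

lemma l4_step1 {ι : Type} [Fintype ι] (D : ι → ι → ℝ) (c : ℝ)
    (h : ∀ A B : Finset ι, |∑ u ∈ A, ∑ v ∈ B, D u v| ≤ c) (β : ι → ℂ) (hβ : ∀ v, ‖β v‖ ≤ 1)
    (A : Finset ι) : ‖∑ u ∈ A, ∑ v, (D u v : ℂ) * β v‖ ≤ 2 * c := by
  have h1 : ∑ u ∈ A, ∑ v, (D u v : ℂ) * β v = ∑ v, ((∑ u ∈ A, D u v : ℝ) : ℂ) * β v := by
    rw [Finset.sum_comm]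
    refine Finset.sum_congr rfl fun v _ => ?_
    rw [← Finset.sum_mul]
    push_cast
    rfl
  rw [h1]
  calc ‖∑ v, ((∑ u ∈ A, D u v : ℝ) : ℂ) * β v‖ ≤ ∑ v, ‖((∑ u ∈ A, D u v : ℝ) : ℂ) * β v‖ :=
        norm_sum_le _ _
    _ ≤ ∑ v, |∑ u ∈ A, D u v| := by
        refine Finset.sum_le_sum fun v _ => ?_
        rw [norm_mul, Complex.norm_real, Real.norm_eq_abs]
        exact mul_le_of_le_one_right (abs_nonneg _) (hβ v)
    _ ≤ 2 * c := by
        refine l4_abs_sum _ c fun B => ?_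
        rw [Finset.sum_comm]
        exact h A B

lemma l4_bilin {ι : Type} [Fintype ι] (D : ι → ι → ℝ) (c : ℝ)
    (h : ∀ A B : Finset ι, |∑ u ∈ A, ∑ v ∈ B, D u v| ≤ c) (α β : ι → ℂ) (hα : ∀ v, ‖α v‖ ≤ 1)
    (hβ : ∀ v, ‖β v‖ ≤ 1) : ‖∑ u, ∑ v, α u * (D u v : ℂ) * β v‖ ≤ 8 * c := by
  set S : ι → ℂ := fun u => ∑ v, (D u v : ℂ) * β v with hS
  have hs : ∀ A : Finset ι, ‖∑ u ∈ A, S u‖ ≤ 2 * c := fun A => l4_step1 D c h β hβ A
  have hre : ∑ u, |(S u).re| ≤ 2 * (2 * c) := by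
    refine l4_abs_sum _ _ fun A => ?_
    rw [← Complex.re_sum]
    exact (Complex.abs_re_le_norm _).trans (hs A)
  have him : ∑ u, |(S u).im| ≤ 2 * (2 * c) := by
    refine l4_abs_sum _ _ fun A => ?_
    rw [← Complex.im_sum]
    exact (Complex.abs_im_le_norm _).trans (hs A)
  have h1 : ∑ u, ∑ v, α u * (D u v : ℂ) * β v = ∑ u, α u * S u := by
    refine Finset.sum_congr rfl fun u _ => ?_
    rw [hS, Finset.mul_sum]
    exact Finset.sum_congr rfl fun v _ => by ring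
  rw [h1]
  calc ‖∑ u, α u * S u‖ ≤ ∑ u, ‖α u * S u‖ := norm_sum_le _ _
    _ ≤ ∑ u, (|(S u).re| + |(S u).im|) := by
        refine Finset.sum_le_sum fun u _ => ?_
        rw [norm_mul]
        calc ‖α u‖ * ‖S u‖ ≤ 1 * ‖S u‖ := by gcongr; exact hα u
          _ = ‖S u‖ := one_mul _
          _ ≤ |(S u).re| + |(S u).im| := Complex.norm_le_abs_re_add_abs_im _
    _ = ∑ u, |(S u).re| + ∑ u, |(S u).im| := Finset.sum_add_distrib
    _ ≤ 8 * c := by linarith

/-! ### traces -/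

/-- traces of the needed polynomials of a Hermitian matrix -/
lemma l4_spec {ι : Type} [Fintype ι] [DecidableEq ι] (X : Matrix ι ι ℂ) (hX : X.IsHermitian)
    (N : ℝ) : ∃ μ : ι → ℝ, (X ^ 2).trace = ((∑ i, μ i ^ 2 : ℝ) : ℂ) ∧
      (X ^ 3).trace = ((∑ i, μ i ^ 3 : ℝ) : ℂ) ∧ (X ^ 4).trace = ((∑ i, μ i ^ 4 : ℝ) : ℂ) ∧
      (((N : ℂ) • X - X ^ 2) ^ 4).trace = ((∑ i, (N * μ i - μ i ^ 2) ^ 4 : ℝ) : ℂ) := by
  refine ⟨hX.eigenvalues, ?_⟩
  set φ := Unitary.conjStarAlgAut ℂ (Matrix ι ι ℂ) hX.eigenvectorUnitary with hφ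
  set W : Matrix ι ι ℂ := Matrix.diagonal (RCLike.ofReal ∘ hX.eigenvalues) with hW
  have hXW : X = φ W := hX.spectral_theorem
  have htr : ∀ Y, (φ Y).trace = Y.trace := by
    intro Y
    rw [hφ, Unitary.conjStarAlgAut_apply, Matrix.trace_mul_comm, ← Matrix.mul_assoc]
    simp
  have hpow : ∀ k : ℕ, W ^ k = Matrix.diagonal (fun i => ((hX.eigenvalues i : ℂ)) ^ k) := by
    intro k
    rw [hW, Matrix.diagonal_pow]
    rfl
  have hXk : ∀ k : ℕ, X ^ k = φ (W ^ k) := by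
    intro k
    rw [map_pow, ← hXW]
  have key : ∀ k : ℕ, (X ^ k).trace = ((∑ i, hX.eigenvalues i ^ k : ℝ) : ℂ) := by
    intro k
    rw [hXk, htr, hpow, Matrix.trace_diagonal]
    push_cast
    rfl
  refine ⟨key 2, key 3, key 4, ?_⟩
  have h1 : ((N : ℂ) • X - X ^ 2) ^ 4 = φ (((N : ℂ) • W - W ^ 2) ^ 4) := by
    rw [map_pow, map_sub, map_smul, map_pow, ← hXW]
  have h2 : (N : ℂ) • W - W ^ 2 =
      Matrix.diagonal (fun i => (N : ℂ) * hX.eigenvalues i - (hX.eigenvalues i : ℂ) ^ 2) := by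
    rw [hpow, hW, ← Matrix.diagonal_smul, Matrix.diagonal_sub]
    rfl
  rw [h1, htr, h2, Matrix.diagonal_pow, Matrix.trace_diagonal]
  push_cast
  rfl

/-! ### the matrix `X` -/

lemma l4_chi_swap {n : ℕ} (a b : Fin n) (e : Fin n × Fin n) : chi a b e = - chi b a e := by
  unfold chi
  ring

lemma l4_tl_swap {n q : ℕ} (f : E' n → ZMod q) (a b : Fin n) : tl f a b = - tl f b a := by
  unfold tl
  rw [← Finset.sum_neg_distrib]
  exact Finset.sum_congr rfl fun e _ => by rw [l4_chi_swap, neg_smul]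

noncomputable def l4_X {n q : ℕ} [NeZero q] (f : E' n → ZMod q) : Matrix (Fin n) (Fin n) ℂ :=
  Matrix.of fun u v => (ZMod.stdAddChar (tl f u v) : ℂ)

lemma l4_conj {q : ℕ} [NeZero q] (a : ZMod q) :
    star (ZMod.stdAddChar a : ℂ) = ZMod.stdAddChar (-a) := by
  rw [AddChar.map_neg_eq_conj]
  rfl

lemma l4_herm {n q : ℕ} [NeZero q] (f : E' n → ZMod q) : (l4_X f).IsHermitian := by
  ext u v
  simp only [l4_X, Matrix.conjTranspose_apply, Matrix.of_apply]
  rw [l4_conj, ← l4_tl_swap]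

lemma l4_norm {q : ℕ} [NeZero q] (a : ZMod q) : ‖(ZMod.stdAddChar a : ℂ)‖ = 1 :=
  AddChar.norm_apply _ _

lemma l4_sq {n q : ℕ} [NeZero q] (f : E' n → ZMod q) (u v : Fin n) :
    (l4_X f ^ 2) u v = ∑ c, (ZMod.stdAddChar (tl f u c + tl f c v) : ℂ) := by
  rw [pow_two, Matrix.mul_apply]
  exact Finset.sum_congr rfl fun c _ => by
    simp only [l4_X, Matrix.of_apply, AddChar.map_add_eq_mul]

lemma l4_tr2 {n q : ℕ} [NeZero q] (f : E' n → ZMod q) :
    (l4_X f ^ 2).trace = ((n : ℝ) ^ 2 : ℝ) := by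
  simp only [Matrix.trace, Matrix.diag_apply, l4_sq]
  have : ∀ u v : Fin n, tl f u v + tl f v u = 0 := fun u v => by
    rw [l4_tl_swap f u v]; simp
  simp only [this, AddChar.map_zero_eq_one]
  simp [pow_two]

lemma l4_tr3 {n q : ℕ} [NeZero q] (f : E' n → ZMod q) :
    (l4_X f ^ 3).trace = ∑ t : Tri n, (ZMod.stdAddChar (cob (tl f) t) : ℂ) := by
  rw [pow_succ]
  simp only [Matrix.trace, Matrix.diag_apply, Matrix.mul_apply, l4_sq]
  rw [Fintype.sum_prod_type]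
  refine Finset.sum_congr rfl fun a _ => ?_
  rw [Fintype.sum_prod_type, Finset.sum_comm' (t' := Finset.univ) (s' := fun _ => Finset.univ)
    (by simp)]
  refine Finset.sum_congr rfl fun c _ => ?_
  rw [Finset.sum_mul]
  refine Finset.sum_congr rfl fun b _ => ?_
  simp only [l4_X, Matrix.of_apply, cob, AddChar.map_add_eq_mul]

lemma l4_tr4 {n q : ℕ} [NeZero q] (f : E' n → ZMod q) :
    (l4_X f ^ 4).trace = ((∑ a : Fin n, ∑ b : Fin n,
      ‖∑ c : Fin n, (ZMod.stdAddChar (tl f a c + tl f c b) : ℂ)‖ ^ 2 : ℝ) : ℂ) := by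
  have h4 : l4_X f ^ 4 = l4_X f ^ 2 * l4_X f ^ 2 := by rw [← pow_add]
  have hh : (l4_X f ^ 2).IsHermitian := (l4_herm f).pow 2
  rw [h4]
  simp only [Matrix.trace, Matrix.diag_apply, Matrix.mul_apply]
  push_cast
  refine Finset.sum_congr rfl fun a _ => Finset.sum_congr rfl fun b _ => ?_
  rw [← l4_sq f a b, ← hh.apply b a]
  rw [← Complex.mul_conj']
  rfl

/-- `D = n X - X^2` in terms of the laws -/
lemma l4_D {n q : ℕ} (hn : 1 ≤ n) [NeZero q] (f : E' n → ZMod q) (u v : Fin n) :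
    ((n : ℂ) • l4_X f - l4_X f ^ 2) u v =
      ∑ a : ZMod q, (ZMod.stdAddChar a : ℂ) *
        (((n : ℝ) * (indf f u v a - nuf f u v a) : ℝ) : ℂ) := by
  have hn0 : (n : ℂ) ≠ 0 := by
    have : n ≠ 0 := by omega
    exact_mod_cast this
  rw [Matrix.sub_apply, Matrix.smul_apply, l4_sq]
  have h1 : (n : ℂ) • l4_X f u v =
      ∑ a : ZMod q, (ZMod.stdAddChar a : ℂ) * ((n : ℂ) * (indf f u v a : ℂ)) := by
    simp only [indf, l4_X, Matrix.of_apply]
    rw [Finset.sum_eq_single (tl f u v)]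
    · simp [mul_comm]
    · intro b _ hb
      rw [if_neg (Ne.symm hb)]
      simp
    · simp
  have h2 : ∑ c, (ZMod.stdAddChar (tl f u c + tl f c v) : ℂ) =
      ∑ a : ZMod q, (ZMod.stdAddChar a : ℂ) * ((n : ℂ) * (nuf f u v a : ℂ)) := by
    have h3 : ∀ a, (n : ℂ) * (nuf f u v a : ℂ) =
        ∑ c : Fin n, if tl f u c + tl f c v = a then (1 : ℂ) else 0 := by
      intro a
      unfold nuf cnt
      push_cast
      rw [mul_div_cancel₀ _ hn0]
      rw [Finset.card_filter]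
      push_cast
      exact Finset.sum_congr rfl fun c _ => by congr
    simp only [h3, Finset.mul_sum]
    rw [Finset.sum_comm]
    refine Finset.sum_congr rfl fun c _ => ?_
    rw [Finset.sum_eq_single (tl f u c + tl f c v)]
    · simp
    · intro b _ hb
      rw [if_neg (Ne.symm hb)]
      simp
    · simp
  rw [h1, h2, ← Finset.sum_sub_distrib]
  refine Finset.sum_congr rfl fun a _ => ?_
  push_cast
  ring

lemma l4_D_norm {n q : ℕ} [NeZero q] (f : E' n → ZMod q) (u v : Fin n) :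
    ‖((n : ℂ) • l4_X f - l4_X f ^ 2) u v‖ ≤ 2 * n := by
  rw [Matrix.sub_apply, Matrix.smul_apply, l4_sq]
  refine (norm_sub_le _ _).trans ?_
  have h1 : ‖(n : ℂ) • l4_X f u v‖ = n := by
    rw [smul_eq_mul, norm_mul]
    simp only [l4_X, Matrix.of_apply, l4_norm]
    simp
  have h2 : ‖∑ c, (ZMod.stdAddChar (tl f u c + tl f c v) : ℂ)‖ ≤ n := by
    refine (norm_sum_le _ _).trans ?_
    simp [l4_norm]
  linarith

lemma l4_D_cut {n q : ℕ} (hn : 1 ≤ n) [NeZero q] (f : E' n → ZMod q) (c : ℝ)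
    (h : CutClose (indf f) (nuf f) c) (α β : Fin n → ℂ) (hα : ∀ v, ‖α v‖ ≤ 1)
    (hβ : ∀ v, ‖β v‖ ≤ 1) :
    ‖∑ u, ∑ v, α u * ((n : ℂ) • l4_X f - l4_X f ^ 2) u v * β v‖ ≤ q * (8 * (n * c)) := by
  have h1 : ∑ u, ∑ v, α u * ((n : ℂ) • l4_X f - l4_X f ^ 2) u v * β v =
      ∑ a : ZMod q, (ZMod.stdAddChar a : ℂ) *
        ∑ u, ∑ v, α u * (((n : ℝ) * (indf f u v a - nuf f u v a) : ℝ) : ℂ) * β v := by
    simp only [Finset.mul_sum]
    rw [Finset.sum_comm (s := (Finset.univ : Finset (ZMod q)))]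
    refine Finset.sum_congr rfl fun u _ => ?_
    rw [Finset.sum_comm (s := (Finset.univ : Finset (ZMod q)))]
    refine Finset.sum_congr rfl fun v _ => ?_
    rw [l4_D hn, Finset.mul_sum, Finset.sum_mul]
    exact Finset.sum_congr rfl fun a _ => by ring
  rw [h1]
  calc _ ≤ ∑ a : ZMod q, ‖(ZMod.stdAddChar a : ℂ) *
        ∑ u, ∑ v, α u * (((n : ℝ) * (indf f u v a - nuf f u v a) : ℝ) : ℂ) * β v‖ :=
        norm_sum_le _ _
    _ ≤ ∑ _a : ZMod q, 8 * (n * c) := by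
        refine Finset.sum_le_sum fun a _ => ?_
        rw [norm_mul, l4_norm, one_mul]
        refine l4_bilin (fun u v => (n : ℝ) * (indf f u v a - nuf f u v a)) (n * c) ?_ α β hα hβ
        intro A B
        have h2 : ∑ u ∈ A, ∑ v ∈ B, (n : ℝ) * (indf f u v a - nuf f u v a) =
            n * ∑ u ∈ A, ∑ v ∈ B, (indf f u v a - nuf f u v a) := by
          rw [Finset.mul_sum]
          exact Finset.sum_congr rfl fun u _ => by rw [Finset.mul_sum]
        rw [h2, abs_mul, abs_of_nonneg (Nat.cast_nonneg n : (0 : ℝ) ≤ n)]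
        exact mul_le_mul_of_nonneg_left (h a A B) (Nat.cast_nonneg n)
    _ = q * (8 * (n * c)) := by
        rw [Finset.sum_const, Finset.card_univ, ZMod.card, nsmul_eq_mul]

lemma l4_tr_D4 {n q : ℕ} (hn : 1 ≤ n) [NeZero q] (f : E' n → ZMod q) (ε : ℝ)
    (h : CutClose (indf f) (nuf f) (ε * (n : ℝ) ^ 2)) :
    ‖(((n : ℂ) • l4_X f - l4_X f ^ 2) ^ 4).trace‖ ≤ 64 * q * ε * (n : ℝ) ^ 8 := by
  have hn0 : (0 : ℝ) < n := by
    have : 0 < n := by omega
    exact_mod_cast this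
  have hnc : (n : ℂ) ≠ 0 := by
    have : n ≠ 0 := by omega
    exact_mod_cast this
  set D := ((n : ℂ) • l4_X f - l4_X f ^ 2) with hD
  have hDn : ∀ u v, ‖D u v‖ ≤ 2 * n := fun u v => l4_D_norm f u v
  have h1 : (D ^ 4).trace = ∑ z, ∑ w, D w z * ∑ u, ∑ v, D z u * D u v * D v w := by
    have h4 : D ^ 4 = D * D * D * D := by
      rw [pow_succ, pow_succ, pow_two]
    rw [h4]
    simp only [Matrix.trace, Matrix.diag_apply]
    refine Finset.sum_congr rfl fun z _ => ?_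
    rw [Matrix.mul_apply]
    refine Finset.sum_congr rfl fun w _ => ?_
    rw [mul_comm]
    congr 1
    rw [Matrix.mul_apply]
    simp only [Matrix.mul_apply, Finset.sum_mul]
    rw [Finset.sum_comm]
  have h2 : ∀ z w, ‖∑ u, ∑ v, D z u * D u v * D v w‖ ≤
      (2 * n) ^ 2 * (q * (8 * (n * (ε * (n : ℝ) ^ 2)))) := by
    intro z w
    have h3 := l4_D_cut hn f _ h (fun u => D z u / (2 * n)) (fun v => D v w / (2 * n))
      (by
        intro v
        rw [norm_div]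
        refine div_le_one_of_le₀ ?_ (norm_nonneg _)
        have : ‖(2 * n : ℂ)‖ = 2 * n := by simp
        rw [this]
        exact hDn _ _)
      (by
        intro v
        rw [norm_div]
        refine div_le_one_of_le₀ ?_ (norm_nonneg _)
        have : ‖(2 * n : ℂ)‖ = 2 * n := by simp
        rw [this]
        exact hDn _ _)
    have h4 : ∑ u, ∑ v, D z u * D u v * D v w = (2 * n : ℂ) ^ 2 *
        ∑ u, ∑ v, D z u / (2 * n) * D u v * (D v w / (2 * n)) := by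
      rw [Finset.mul_sum]
      refine Finset.sum_congr rfl fun u _ => ?_
      rw [Finset.mul_sum]
      refine Finset.sum_congr rfl fun v _ => ?_
      field_simp
    rw [h4, norm_mul]
    have h5 : ‖(2 * n : ℂ) ^ 2‖ = (2 * n : ℝ) ^ 2 := by
      rw [norm_pow]
      simp
    rw [h5]
    exact mul_le_mul_of_nonneg_left h3 (by positivity)
  rw [h1]
  have h0 : 0 ≤ (2 * (n : ℝ)) ^ 2 * (q * (8 * (n * (ε * (n : ℝ) ^ 2)))) := by
    have hz : Fin n := ⟨0, by omega⟩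
    exact (norm_nonneg _).trans (h2 hz hz)
  calc ‖∑ z, ∑ w, D w z * ∑ u, ∑ v, D z u * D u v * D v w‖
      ≤ ∑ z, ∑ w, ‖D w z * ∑ u, ∑ v, D z u * D u v * D v w‖ :=
        (norm_sum_le _ _).trans (Finset.sum_le_sum fun z _ => norm_sum_le _ _)
    _ ≤ ∑ _z : Fin n, ∑ _w : Fin n,
        (2 * n) * ((2 * (n : ℝ)) ^ 2 * (q * (8 * (n * (ε * (n : ℝ) ^ 2))))) := by
        refine Finset.sum_le_sum fun z _ => Finset.sum_le_sum fun w _ => ?_
        rw [norm_mul]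
        exact mul_le_mul (hDn _ _) (h2 _ _) (norm_nonneg _) (by positivity)
    _ = 64 * q * ε * (n : ℝ) ^ 8 := by
        simp only [Finset.sum_const, Finset.card_univ, Fintype.card_fin, nsmul_eq_mul]
        ring

/-- gap of the real part of a nontrivial root of unity -/
lemma l4_gap (q : ℕ) [NeZero q] : ∃ κ : ℝ, 0 < κ ∧ ∀ a : ZMod q, a ≠ 0 →
    (ZMod.stdAddChar a : ℂ).re ≤ 1 - κ := by
  classical
  have hlt : ∀ a : ZMod q, a ≠ 0 → (ZMod.stdAddChar a : ℂ).re < 1 := by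
    intro a ha
    have h1 : (ZMod.stdAddChar a : ℂ).re ≤ 1 := by
      have := Complex.re_le_norm (ZMod.stdAddChar a : ℂ)
      rwa [l4_norm] at this
    rcases lt_or_eq_of_le h1 with h | h
    · exact h
    · exfalso
      have h2 : (ZMod.stdAddChar a : ℂ) = 1 := by
        have h3 : (ZMod.stdAddChar a : ℂ).re ^ 2 + (ZMod.stdAddChar a : ℂ).im ^ 2 = 1 := by
          have h4 := Complex.sq_norm (ZMod.stdAddChar a : ℂ)
          rw [l4_norm, Complex.normSq_apply] at h4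
          linarith
        rw [h] at h3
        have h5 : (ZMod.stdAddChar a : ℂ).im = 0 := by nlinarith
        exact Complex.ext (by simpa using h) (by simpa using h5)
      apply ha
      apply ZMod.injective_stdAddChar
      rw [h2, AddChar.map_zero_eq_one]
  by_cases hne : ((Finset.univ : Finset (ZMod q)).filter (fun a => a ≠ 0)).Nonempty
  · obtain ⟨b, hb, hmin⟩ := Finset.exists_min_image _
      (fun a : ZMod q => 1 - (ZMod.stdAddChar a : ℂ).re) hne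
    refine ⟨1 - (ZMod.stdAddChar b : ℂ).re, ?_, ?_⟩
    · have := hlt b (Finset.mem_filter.mp hb).2
      linarith
    · intro a ha
      have := hmin a (Finset.mem_filter.mpr ⟨Finset.mem_univ _, ha⟩)
      linarith
  · refine ⟨1, one_pos, fun a ha => ?_⟩
    exact absurd ⟨a, Finset.mem_filter.mpr ⟨Finset.mem_univ _, ha⟩⟩ hne

/-- BLOCK L4 -/
theorem dich_pr (q : ℕ) [NeZero q] (hq : 2 ≤ q) (ε0 ε1 : ℝ) (h0 : 0 < ε0) (h1 : 0 < ε1) :
    ∃ ε5 : ℝ, 0 < ε5 ∧ ∀ n : ℕ, 1 ≤ n → ∀ f : E' n → ZMod q,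
      CutClose (indf f) (nuf f) (ε5 * (n : ℝ) ^ 2) → Small q ε0 f ∨ QR q ε1 f := by
  classical
  obtain ⟨κ, hκ, hgap⟩ := l4_gap q
  have hq0 : (0 : ℝ) < q := by
    have : 0 < q := by omega
    exact_mod_cast this
  set θ : ℝ := min 1 (κ * ε0 / 5) with hθ
  have hθ0 : 0 < θ := lt_min one_pos (by positivity)
  have hθ1 : θ ≤ 1 := min_le_left _ _
  have hθ2 : θ ≤ κ * ε0 / 5 := min_le_right _ _
  refine ⟨θ ^ 4 * ε1 ^ 2 / (64 * q), by positivity, ?_⟩
  intro n hn f hf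
  have hn0 : (0 : ℝ) < n := by
    have : 0 < n := by omega
    exact_mod_cast this
  obtain ⟨μ, hμ2, hμ3, hμ4, hμD⟩ := l4_spec (l4_X f) (l4_herm f) (n : ℝ)
  have e2 : ∑ i, μ i ^ 2 = (n : ℝ) ^ 2 := by
    have := hμ2.symm.trans (l4_tr2 f)
    exact_mod_cast this
  have e3 : ∑ i, μ i ^ 3 = ∑ t : Tri n, (ZMod.stdAddChar (cob (tl f) t) : ℂ).re := by
    have := hμ3.symm.trans (l4_tr3 f)
    have h2 := congrArg Complex.re this
    rw [Complex.ofReal_re, Complex.re_sum] at h2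
    exact h2
  have e4 : ∑ i, μ i ^ 4 = ∑ a : Fin n, ∑ b : Fin n,
      ‖∑ c : Fin n, (ZMod.stdAddChar (tl f a c + tl f c b) : ℂ)‖ ^ 2 := by
    have := hμ4.symm.trans (l4_tr4 f)
    exact_mod_cast this
  have eD : ∑ i, (n * μ i - μ i ^ 2) ^ 4 ≤ θ ^ 4 * ε1 ^ 2 * (n : ℝ) ^ 8 := by
    have h2 := l4_tr_D4 hn f _ hf
    rw [show ((n : ℝ) : ℂ) = (n : ℂ) by push_cast; rfl] at hμD
    rw [hμD, Complex.norm_real, Real.norm_eq_abs] at h2
    have h3 : 64 * q * (θ ^ 4 * ε1 ^ 2 / (64 * q)) * (n : ℝ) ^ 8 =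
        θ ^ 4 * ε1 ^ 2 * (n : ℝ) ^ 8 := by
      field_simp
    rw [h3] at h2
    exact (le_abs_self _).trans h2
  by_cases hall : ∀ i, μ i ^ 2 ≤ ε1 * (n : ℝ) ^ 2
  · right
    unfold QR
    rw [← e4]
    calc ∑ i, μ i ^ 4 ≤ ∑ i, (ε1 * (n : ℝ) ^ 2) * μ i ^ 2 := by
          refine Finset.sum_le_sum fun i _ => ?_
          have : μ i ^ 4 = μ i ^ 2 * μ i ^ 2 := by ring
          rw [this]
          exact mul_le_mul_of_nonneg_right (hall i) (sq_nonneg _)
      _ = ε1 * (n : ℝ) ^ 4 := by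
          rw [← Finset.mul_sum, e2]
          ring
  · left
    push Not at hall
    obtain ⟨j, hj⟩ := hall
    -- `μ j` is close to `n`
    have hjle : ∀ i, μ i ^ 2 ≤ (n : ℝ) ^ 2 := by
      intro i
      rw [← e2]
      exact Finset.single_le_sum (f := fun i => μ i ^ 2) (fun i _ => sq_nonneg _)
        (Finset.mem_univ i)
    have hjD : (n * μ j - μ j ^ 2) ^ 4 ≤ θ ^ 4 * ε1 ^ 2 * (n : ℝ) ^ 8 :=
      (Finset.single_le_sum (f := fun i => (n * μ i - μ i ^ 2) ^ 4)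
        (fun i _ => by positivity) (Finset.mem_univ j)).trans eD
    have hj1 : (ε1 * (n : ℝ) ^ 2) ^ 2 * (n - μ j) ^ 4 ≤ θ ^ 4 * ε1 ^ 2 * (n : ℝ) ^ 8 := by
      have h2 : (n * μ j - μ j ^ 2) ^ 4 = (μ j ^ 2) ^ 2 * (n - μ j) ^ 4 := by ring
      rw [h2] at hjD
      refine le_trans ?_ hjD
      refine mul_le_mul_of_nonneg_right ?_ (by positivity)
      exact pow_le_pow_left₀ (by positivity) hj.le 2
    have hj2 : (n - μ j) ^ 4 ≤ (θ * n) ^ 4 := by
      have h3 : (ε1 * (n : ℝ) ^ 2) ^ 2 * (n - μ j) ^ 4 ≤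
          (ε1 * (n : ℝ) ^ 2) ^ 2 * (θ * n) ^ 4 := by
        refine hj1.trans (le_of_eq ?_)
        ring
      exact le_of_mul_le_mul_left h3 (by positivity)
    have hj3 : n - μ j ≤ θ * n := by
      have h4 := abs_le_of_sq_le_sq' (a := (n - μ j) ^ 2) (b := (θ * n) ^ 2)
        (by nlinarith [hj2]) (by positivity)
      have h5 := abs_le_of_sq_le_sq' (a := n - μ j) (b := θ * n) h4.2 (by positivity)
      exact h5.2
    have hj4 : (1 - θ) * n ≤ μ j := by linarith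
    have hj5 : 0 ≤ (1 - θ) * n := mul_nonneg (by linarith) hn0.le
    have habs : ∀ i, |μ i| ≤ n := fun i => abs_le_of_sq_le_sq (hjle i) hn0.le
    -- lower bound of the sum of cubes
    have hcub : μ j ^ 3 - n * ((n : ℝ) ^ 2 - μ j ^ 2) ≤ ∑ i, μ i ^ 3 := by
      have h6 : ∑ i, μ i ^ 3 = μ j ^ 3 + ∑ i ∈ Finset.univ.erase j, μ i ^ 3 :=
        (Finset.add_sum_erase _ _ (Finset.mem_univ j)).symm
      have h7 : (n : ℝ) ^ 2 = μ j ^ 2 + ∑ i ∈ Finset.univ.erase j, μ i ^ 2 := by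
        rw [← e2]
        exact (Finset.add_sum_erase _ _ (Finset.mem_univ j)).symm
      have h8 : - (n * ∑ i ∈ Finset.univ.erase j, μ i ^ 2) ≤
          ∑ i ∈ Finset.univ.erase j, μ i ^ 3 := by
        rw [Finset.mul_sum, ← Finset.sum_neg_distrib]
        refine Finset.sum_le_sum fun i _ => ?_
        have h9 := (abs_le.mp (habs i)).1
        nlinarith [sq_nonneg (μ i)]
      have h10 : (n : ℝ) ^ 2 - μ j ^ 2 = ∑ i ∈ Finset.univ.erase j, μ i ^ 2 := by linarith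
      rw [h6, h10]
      linarith
    have hlow : (1 - 5 * θ) * (n : ℝ) ^ 3 ≤ ∑ i, μ i ^ 3 := by
      refine le_trans ?_ hcub
      have h11 : ((1 - θ) * n) ^ 3 ≤ μ j ^ 3 := pow_le_pow_left₀ hj5 hj4 3
      have h12 : ((1 - θ) * n) ^ 2 ≤ μ j ^ 2 := pow_le_pow_left₀ hj5 hj4 2
      have h13 : n * ((1 - θ) * n) ^ 2 ≤ n * μ j ^ 2 := mul_le_mul_of_nonneg_left h12 hn0.le
      have h14 : (1 - 5 * θ) * (n : ℝ) ^ 3 ≤
          ((1 - θ) * n) ^ 3 - n * ((n : ℝ) ^ 2) + n * ((1 - θ) * n) ^ 2 := by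
        have h15 : ((1 - θ) * n) ^ 3 - n * ((n : ℝ) ^ 2) + n * ((1 - θ) * n) ^ 2 -
            (1 - 5 * θ) * (n : ℝ) ^ 3 = θ ^ 2 * (4 - θ) * (n : ℝ) ^ 3 := by ring
        have h16 : 0 ≤ θ ^ 2 * (4 - θ) * (n : ℝ) ^ 3 := by
          have : 0 ≤ 4 - θ := by linarith
          positivity
        linarith
      nlinarith
    -- upper bound of the real part of the trace
    have hup : ∑ t : Tri n, (ZMod.stdAddChar (cob (tl f) t) : ℂ).re ≤
        (n : ℝ) ^ 3 - κ * (cnt (fun t : Tri n => cob (tl f) t ≠ 0) : ℝ) := by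
      have h17 : (cnt (fun t : Tri n => cob (tl f) t ≠ 0) : ℝ) =
          ∑ t : Tri n, if cob (tl f) t ≠ 0 then (1 : ℝ) else 0 := by
        unfold cnt
        rw [Finset.card_filter]
        push_cast
        exact Finset.sum_congr rfl fun c _ => by congr
      have h18 : ((n : ℝ) ^ 3) = ∑ _t : Tri n, (1 : ℝ) := by
        simp only [Finset.sum_const, Finset.card_univ, Fintype.card_prod, Fintype.card_fin,
          nsmul_eq_mul]
        push_cast
        ring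
      rw [h17, h18, Finset.mul_sum, ← Finset.sum_sub_distrib]
      refine Finset.sum_le_sum fun t _ => ?_
      by_cases ht : cob (tl f) t = 0
      · rw [ht]
        simp
      · rw [if_pos ht]
        have := hgap _ ht
        linarith
    unfold Small
    have h19 : (1 - 5 * θ) * (n : ℝ) ^ 3 ≤
        (n : ℝ) ^ 3 - κ * (cnt (fun t : Tri n => cob (tl f) t ≠ 0) : ℝ) := by
      rw [e3] at hlow
      exact hlow.trans hup
    have h20 : κ * (cnt (fun t : Tri n => cob (tl f) t ≠ 0) : ℝ) ≤ κ * (ε0 * (n : ℝ) ^ 3) := by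
      have h21 : 5 * θ * (n : ℝ) ^ 3 ≤ κ * ε0 * (n : ℝ) ^ 3 :=
        mul_le_mul_of_nonneg_right (by linarith) (by positivity)
      nlinarith
    exact le_of_mul_le_mul_left h20 hκ

end Pool.Agent.HT
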